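import Pool.Agent.H82.ZL.Nl

/-!
# The windows at which the numbers are almost affine

`Eg`: the windows `g` at which all the numbers `L i`, `l ≤ i < n`, are affine with the slopes
`lam i`, `T i` up to `eps` times the distance, on the box of size `rho`. It is measurable
(`eg_meas`); the windows at which the numbers are affine are in countably many sets `Eg` (`eg_ex`).
-/

set_option autoImplicit false

namespace Pool.ZL

open MeasureTheory Set Filter Topology
open Finset (range)
open Pool.LEV (Law)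

/-- **The windows at which the numbers are almost affine.** -/
def Eg (L : ℕ → ℝ → ℝ → ℝ) (l n : ℕ) (lam T : ℕ → ℝ) (eps rho : ℝ) : Set ℝ :=
  {g | 0 < g ∧ g < 1 ∧ ∀ i, l ≤ i → i < n → ∀ x y : ℝ, y ≤ x → |x| < rho → |y| < rho → 0 < g + y →
    g + x < 1 → |L i (g + x) (g + y) - L i g g - (lam i * x + T i * y)| ≤ eps * max |x| |y|}

variable {L : ℕ → ℝ → ℝ → ℝ} {l n : ℕ} {lam T : ℕ → ℝ} {eps rho : ℝ}

/-- One condition, for one pair of numbers. -/
def Eq1 (P : ℝ → ℝ → ℝ) (c M x y : ℝ) : Set ℝ :=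
  {g | 0 < g + y → g + x < 1 → |P (g + x) (g + y) - P g g - c| ≤ M}

theorem abs_lim {u c M : ℝ} {K : ℝ} (hK : 0 ≤ K) (h : ∀ d : ℝ, 0 < d → d < 1 →
    u - c ≤ M + K * d ∧ -(M + K * d) ≤ u - c) : |u - c| ≤ M := by
  have h1 : ∀ e : ℝ, 0 < e → |u - c| ≤ M + e := by
    intro e he
    obtain ⟨d, hd⟩ : ∃ d, d = min (1 / 2) (e / (K + 1)) := ⟨_, rfl⟩
    have hd0 : 0 < d := by rw [hd]; exact lt_min (by norm_num) (by positivity)
    have hd1 : d < 1 := by rw [hd]; exact (min_le_left _ _).trans_lt (by norm_num)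
    have hd2 : K * d ≤ e := by
      have h3 : d ≤ e / (K + 1) := by rw [hd]; exact min_le_right _ _
      rw [le_div_iff₀ (by linarith)] at h3
      nlinarith
    obtain ⟨h4, h5⟩ := h d hd0 hd1
    rw [abs_le]
    constructor <;> linarith
  exact le_of_forall_pos_le_add h1

/-- From the rational pairs to the real ones. -/
theorem rat_ext {P : ℝ → ℝ → ℝ} (hP : Law P) {g la t : ℝ} (heps : 0 ≤ eps)
    (h : ∀ x y : ℚ, y ≤ x → |(x : ℝ)| < rho → |(y : ℝ)| < rho →
      g ∈ Eq1 P (la * x + t * y) (eps * max |(x : ℝ)| |(y : ℝ)|) x y) {x y : ℝ} (hyx : y ≤ x)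
    (hx : |x| < rho) (hy : |y| < rho) (hgy : 0 < g + y) (hgx : g + x < 1) :
    |P (g + x) (g + y) - P g g - (la * x + t * y)| ≤ eps * max |x| |y| := by
  obtain ⟨hx1, hx2⟩ := abs_lt.1 hx
  obtain ⟨hy1, hy2⟩ := abs_lt.1 hy
  -- the room
  obtain ⟨m, hm⟩ : ∃ m, m = min (min (rho - x) (rho - y)) (min (min (x + rho) (y + rho))
      (min (g + y) (1 - (g + x)))) := ⟨_, rfl⟩
  have hm0 : 0 < m := by
    rw [hm]
    exact lt_min (lt_min (by linarith) (by linarith)) (lt_min (lt_min (by linarith) (by linarith))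
      (lt_min hgy (by linarith)))
  have m1 : m ≤ rho - x := by rw [hm]; exact (min_le_left _ _).trans (min_le_left _ _)
  have m2 : m ≤ rho - y := by rw [hm]; exact (min_le_left _ _).trans (min_le_right _ _)
  have m3 : m ≤ x + rho := by
    rw [hm]; exact (min_le_right _ _).trans ((min_le_left _ _).trans (min_le_left _ _))
  have m4 : m ≤ y + rho := by
    rw [hm]; exact (min_le_right _ _).trans ((min_le_left _ _).trans (min_le_right _ _))
  have m5 : m ≤ g + y := by
    rw [hm]; exact (min_le_right _ _).trans ((min_le_right _ _).trans (min_le_left _ _))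
  have m6 : m ≤ 1 - (g + x) := by
    rw [hm]; exact (min_le_right _ _).trans ((min_le_right _ _).trans (min_le_right _ _))
  have hmax : ∀ x' y' d : ℝ, |x' - x| ≤ d → |y' - y| ≤ d → max |x'| |y'| ≤ max |x| |y| + d := by
    intro x' y' d h1 h2
    refine max_le ?_ ?_
    · have h3 := abs_add_le x (x' - x)
      rw [add_sub_cancel] at h3
      linarith [le_max_left |x| |y|]
    · have h3 := abs_add_le y (y' - y)
      rw [add_sub_cancel] at h3
      linarith [le_max_right |x| |y|]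
  have hlin : ∀ x' y' d : ℝ, |x' - x| ≤ d → |y' - y| ≤ d →
      |(la * x' + t * y') - (la * x + t * y)| ≤ (|la| + |t|) * d := by
    intro x' y' d h1 h2
    have e1 : (la * x' + t * y') - (la * x + t * y) = la * (x' - x) + t * (y' - y) := by ring
    rw [e1]
    refine (abs_add_le _ _).trans ?_
    rw [abs_mul, abs_mul, add_mul]
    exact add_le_add (mul_le_mul_of_nonneg_left h1 (abs_nonneg _))
      (mul_le_mul_of_nonneg_left h2 (abs_nonneg _))
  refine abs_lim (K := |la| + |t| + eps) (by positivity) fun d₀ hd₀ hd₁ => ?_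
  obtain ⟨d, hd⟩ : ∃ d, d = min d₀ m := ⟨_, rfl⟩
  have hd0 : 0 < d := by rw [hd]; exact lt_min hd₀ hm0
  have hdd : d ≤ d₀ := by rw [hd]; exact min_le_left _ _
  have hdm : d ≤ m := by rw [hd]; exact min_le_right _ _
  have hKd : (|la| + |t| + eps) * d ≤ (|la| + |t| + eps) * d₀ :=
    mul_le_mul_of_nonneg_left hdd (by positivity)
  have hsplit : (|la| + |t| + eps) * d = (|la| + |t|) * d + eps * d := by ring
  constructor
  · -- from above
    obtain ⟨y', l1, l2⟩ := exists_rat_btwn (show y < y + d by linarith)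
    obtain ⟨x', l3, l4⟩ := exists_rat_btwn (show max x (y' : ℝ) < x + d from
      max_lt (by linarith) (by linarith))
    have l5 : x < (x' : ℝ) := (le_max_left _ _).trans_lt l3
    have l6 : (y' : ℝ) < x' := (le_max_right _ _).trans_lt l3
    have l7 : |(x' : ℝ) - x| ≤ d := by rw [abs_le]; constructor <;> linarith
    have l8 : |(y' : ℝ) - y| ≤ d := by rw [abs_le]; constructor <;> linarith
    have k1 := h x' y' (by exact_mod_cast l6.le) (abs_lt.2 ⟨by linarith, by linarith⟩)
      (abs_lt.2 ⟨by linarith, by linarith⟩) (by linarith) (by linarith)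
    have k2 := hP.mono (a := g + x) (a' := g + x') (w := g + y) (w' := g + y') hgy.le
      (by linarith) (by linarith) (by linarith) (by linarith) (by linarith)
    have k3 := abs_le.1 k1
    have k4 := abs_le.1 (hlin x' y' d l7 l8)
    have k5 := mul_le_mul_of_nonneg_left (hmax x' y' d l7 l8) heps
    rw [mul_add] at k5
    linarith [k3.2, k4.2]
  · -- from below
    obtain ⟨x', l1, l2⟩ := exists_rat_btwn (show x - d < x by linarith)
    obtain ⟨y', l3, l4⟩ := exists_rat_btwn (show y - d < min y (x' : ℝ) from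
      lt_min (by linarith) (by linarith))
    have l5 : (y' : ℝ) < y := l4.trans_le (min_le_left _ _)
    have l6 : (y' : ℝ) < x' := l4.trans_le (min_le_right _ _)
    have l7 : |(x' : ℝ) - x| ≤ d := by rw [abs_le]; constructor <;> linarith
    have l8 : |(y' : ℝ) - y| ≤ d := by rw [abs_le]; constructor <;> linarith
    have k1 := h x' y' (by exact_mod_cast l6.le) (abs_lt.2 ⟨by linarith, by linarith⟩)
      (abs_lt.2 ⟨by linarith, by linarith⟩) (by linarith) (by linarith)
    have k2 := hP.mono (a := g + x') (a' := g + x) (w := g + y') (w' := g + y) (by linarith)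
      (by linarith) (by linarith) (by linarith) (by linarith) (by linarith)
    have k3 := abs_le.1 k1
    have k4 := abs_le.1 (hlin x' y' d l7 l8)
    have k5 := mul_le_mul_of_nonneg_left (hmax x' y' d l7 l8) heps
    rw [mul_add] at k5
    linarith [k3.1, k4.1]

/-- One condition is measurable. -/
theorem eq1_meas {P : ℝ → ℝ → ℝ} (hP : Law P) (hb : ∀ a w : ℝ, 0 ≤ w → w ≤ a → a ≤ 1 →
    0 ≤ P a w ∧ P a w ≤ 1) {c M x y : ℝ} (hyx : y ≤ x) :
    MeasurableSet (Eq1 P c M x y ∩ Ioo 0 1) := by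
  obtain ⟨I, hI⟩ : ∃ I : Set ℝ, I = {g | 0 < g + y ∧ g + x < 1} ∩ Ioo 0 1 := ⟨_, rfl⟩
  have hIm : MeasurableSet I := by
    rw [hI]
    refine MeasurableSet.inter ?_ measurableSet_Ioo
    refine MeasurableSet.inter ?_ ?_
    · exact measurableSet_lt measurable_const (measurable_id.add_const y)
    · exact measurableSet_lt (measurable_id.add_const x) measurable_const
  have h1 : MonotoneOn (fun g => P (g + x) (g + y)) I := by
    rw [hI]
    rintro g ⟨⟨h2, h3⟩, -⟩ g' ⟨⟨h4, h5⟩, -⟩ hgg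
    exact hP.mono h2.le (by linarith) (by linarith) (by linarith) (by linarith) h5.le
  have h2 : MonotoneOn (fun g => P g g) I := by
    rw [hI]
    rintro g ⟨-, h2, h3⟩ g' ⟨-, h4, h5⟩ hgg
    exact hP.mono h2.le le_rfl hgg hgg le_rfl h5.le
  have hbd : ∀ f : ℝ → ℝ, (∀ g ∈ I, 0 ≤ f g ∧ f g ≤ 1) → BddBelow (f '' I) ∧ BddAbove (f '' I) := by
    intro f hf
    exact ⟨⟨0, by rintro _ ⟨g, hg, rfl⟩; exact (hf g hg).1⟩,
      ⟨1, by rintro _ ⟨g, hg, rfl⟩; exact (hf g hg).2⟩⟩
  obtain ⟨b1, b2⟩ := hbd (fun g => P (g + x) (g + y)) fun g hg => by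
    rw [hI] at hg
    exact hb _ _ hg.1.1.le (by linarith) hg.1.2.le
  obtain ⟨b3, b4⟩ := hbd (fun g => P g g) fun g hg => by
    rw [hI] at hg
    exact hb _ _ hg.2.1.le le_rfl hg.2.2.le
  obtain ⟨f1, m1, e1⟩ := h1.exists_monotone_extension b1 b2
  obtain ⟨f2, m2, e2⟩ := h2.exists_monotone_extension b3 b4
  have h3 : Eq1 P c M x y ∩ Ioo 0 1 = (Ioo 0 1 \ I) ∪ (I ∩ {g | |f1 g - f2 g - c| ≤ M}) := by
    ext g
    constructor
    · rintro ⟨hg1, hg2⟩
      by_cases hg : g ∈ I
      · refine Or.inr ⟨hg, ?_⟩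
        show |f1 g - f2 g - c| ≤ M
        rw [← e1 hg, ← e2 hg]
        rw [hI] at hg
        exact hg1 hg.1.1 hg.1.2
      · exact Or.inl ⟨hg2, hg⟩
    · rintro (⟨hg2, hg⟩ | ⟨hg, hg1⟩)
      · refine ⟨fun h4 h5 => absurd ?_ hg, hg2⟩
        rw [hI]
        exact ⟨⟨h4, h5⟩, hg2⟩
      · have hg3 := hg
        rw [hI] at hg3
        refine ⟨fun _ _ => ?_, hg3.2⟩
        have h6 : |f1 g - f2 g - c| ≤ M := hg1
        rw [← e1 hg, ← e2 hg] at h6
        exact h6
  rw [h3]
  refine (measurableSet_Ioo.diff hIm).union (hIm.inter ?_)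
  exact measurableSet_le (((m1.measurable.sub m2.measurable).sub_const c).abs) measurable_const

theorem eg_eq (hL : ∀ i, l ≤ i → i < n → Law (L i)) (heps : 0 ≤ eps) :
    Eg L l n lam T eps rho = Ioo 0 1 ∩ ⋂ (i : ℕ), ⋂ (_ : l ≤ i ∧ i < n), ⋂ (x : ℚ), ⋂ (y : ℚ),
      ⋂ (_ : y ≤ x ∧ |(x : ℝ)| < rho ∧ |(y : ℝ)| < rho),
        (Eq1 (L i) (lam i * x + T i * y) (eps * max |(x : ℝ)| |(y : ℝ)|) x y ∩ Ioo 0 1 ∪
          (Ioo 0 1)ᶜ) := by
  ext g
  simp only [Set.mem_inter_iff, Set.mem_iInter, Set.mem_union]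
  constructor
  · rintro ⟨h0, h1, h2⟩
    refine ⟨⟨h0, h1⟩, fun i hi x y hxy => Or.inl ⟨fun h3 h4 => ?_, h0, h1⟩⟩
    exact h2 i hi.1 hi.2 x y (by exact_mod_cast hxy.1) hxy.2.1 hxy.2.2 h3 h4
  · rintro ⟨⟨h0, h1⟩, h2⟩
    refine ⟨h0, h1, fun i hi hin x y hyx hx hy h3 h4 => ?_⟩
    refine rat_ext (hL i hi hin) heps (fun x' y' h5 h6 h7 => ?_) hyx hx hy h3 h4
    rcases h2 i ⟨hi, hin⟩ x' y' ⟨h5, h6, h7⟩ with h8 | h8
    · exact h8.1
    · exact absurd ⟨h0, h1⟩ h8

/-- **The set is measurable.** -/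
theorem eg_meas (hL : ∀ i, l ≤ i → i < n → Law (L i)) (hb : Bd01 L l n) (heps : 0 ≤ eps) :
    MeasurableSet (Eg L l n lam T eps rho) := by
  rw [eg_eq hL heps]
  refine measurableSet_Ioo.inter (MeasurableSet.iInter fun i => MeasurableSet.iInter fun hi =>
    MeasurableSet.iInter fun x => MeasurableSet.iInter fun y => MeasurableSet.iInter fun hxy =>
      (eq1_meas (hL i hi.1 hi.2) (hb i hi.1 hi.2) (by exact_mod_cast hxy.1)).union
        measurableSet_Ioo.compl)

/-! ### Countably many sets -/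

/-- The index of the sets: the gap, the slopes, the size. -/
abbrev Eix (n : ℕ) : Type := ℚ × (Fin n → ℚ) × (Fin n → ℚ) × ℚ

/-- A rational vector as a function. -/
noncomputable def fx (f : Fin n → ℚ) (i : ℕ) : ℝ := if h : i < n then (f ⟨i, h⟩ : ℝ) else 0

/-- The conditions of the slopes. -/
structure Vs (l n : ℕ) (lam T : ℕ → ℝ) (gap : ℝ) : Prop where
  ln : l < n
  gap0 : 0 < gap
  gl : gap ≤ T l
  lam1 : 1 ≤ lam l
  gi : ∀ i, l < i → i < n → T i + gap ≤ T l

/-- The accuracy. -/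
noncomputable def epg (n : ℕ) (C gap : ℝ) : ℝ := gap / (64 * n * C)

/-- The slope of the windows. -/
noncomputable def Kg (n : ℕ) (gap : ℝ) : ℝ := gap / (4 * n)

theorem Vs.n0 (V : Vs l n lam T eps) : (1 : ℝ) ≤ n := by
  have := V.ln
  exact_mod_cast (by omega : 1 ≤ n)

section

variable {gap C : ℝ}

theorem Vs.e0 (V : Vs l n lam T gap) (hC : 1 ≤ C) : 0 < epg n C gap := by
  have h1 := V.n0
  have h2 := V.gap0
  unfold epg
  positivity

theorem Vs.K0 (V : Vs l n lam T gap) : 0 < Kg n gap := by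
  have h1 := V.n0
  have h2 := V.gap0
  unfold Kg
  positivity

theorem Vs.eK (V : Vs l n lam T gap) (hC : 1 ≤ C) : 16 * epg n C gap ≤ Kg n gap := by
  have h1 := V.n0
  have h2 := V.gap0
  unfold epg Kg
  rw [← mul_div_assoc, div_le_div_iff₀ (by positivity) (by positivity)]
  have h3 : gap * n ≤ gap * n * C := le_mul_of_one_le_right (by positivity) hC
  nlinarith

theorem Vs.eC (V : Vs l n lam T gap) (hC : 1 ≤ C) : 64 * C * epg n C gap ≤ gap := by
  have h1 := V.n0
  have h2 := V.gap0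
  unfold epg
  rw [← mul_div_assoc, div_le_iff₀ (by positivity)]
  have h3 : gap * C ≤ gap * C * n := le_mul_of_one_le_right (by positivity) h1
  nlinarith

theorem Vs.eg (V : Vs l n lam T gap) (hC : 1 ≤ C) : 64 * epg n C gap ≤ gap := by
  have h1 := V.eC hC
  have h2 := V.e0 hC
  nlinarith

end

/-- **The windows at which the numbers are affine** are in one of the sets. -/
theorem eg_ex {C g : ℝ} (hC : 1 ≤ C) (hg0 : 0 < g) (hg1 : g < 1) (hl : l < n) {la t : ℕ → ℝ}
    (hA : ∀ i, l ≤ i → i < n → AffA (L i) g (la i) (t i)) (hla : 1 ≤ la l) (ht : 0 < t l)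
    (hti : ∀ i, l < i → i < n → t i < t l) :
    ∃ ι : Eix n, Vs l n (fx ι.2.1) (fx ι.2.2.1) ι.1 ∧ (0 : ℝ) < ι.2.2.2 ∧
      g ∈ Eg L l n (fx ι.2.1) (fx ι.2.2.1) (epg n C ι.1) ι.2.2.2 := by
  classical
  have hn1 : (1 : ℝ) ≤ n := by exact_mod_cast (by omega : 1 ≤ n)
  -- the gap
  obtain ⟨m, hm0, hml, hmi⟩ : ∃ m : ℝ, 0 < m ∧ m ≤ t l ∧ ∀ i, l < i → i < n → t i + m ≤ t l := by
    have key : ∀ k, ∃ m : ℝ, 0 < m ∧ m ≤ t l ∧ ∀ i, l < i → i < n → i < k → t i + m ≤ t l := by
      intro k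
      induction k with
      | zero => exact ⟨t l, ht, le_rfl, fun i _ _ h => absurd h (Nat.not_lt_zero i)⟩
      | succ k ih =>
        obtain ⟨m, h1, h2, h3⟩ := ih
        by_cases hk : l < k ∧ k < n
        · have h4 := hti k hk.1 hk.2
          refine ⟨min m (t l - t k), lt_min h1 (by linarith), (min_le_left _ _).trans h2,
            fun i hi hin hik => ?_⟩
          rcases Nat.lt_or_ge i k with h5 | h5
          · have := h3 i hi hin h5
            linarith [min_le_left m (t l - t k)]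
          · have : i = k := by omega
            subst this
            linarith [min_le_right m (t l - t i)]
        · refine ⟨m, h1, h2, fun i hi hin hik => ?_⟩
          rcases Nat.lt_or_ge i k with h5 | h5
          · exact h3 i hi hin h5
          · have : i = k := by omega
            subst this
            exact absurd ⟨hi, hin⟩ hk
    obtain ⟨m, h1, h2, h3⟩ := key n
    exact ⟨m, h1, h2, fun i hi hin => h3 i hi hin hin⟩
  obtain ⟨gap, q1, q2⟩ := exists_rat_btwn (show (0 : ℝ) < m / 2 by linarith)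
  obtain ⟨e, he⟩ : ∃ e : ℝ, e = epg n C gap := ⟨_, rfl⟩
  have he0 : 0 < e := by
    rw [he]
    unfold epg
    positivity
  have heg : e ≤ gap / 16 := by
    rw [he]
    unfold epg
    refine div_le_div_of_nonneg_left q1.le (by norm_num) ?_
    nlinarith [mul_le_mul hn1 hC zero_le_one (by linarith)]
  -- the slopes
  have hra : ∀ z : ℝ, ∃ q : ℚ, |z - q| ≤ e / 4 := by
    intro z
    obtain ⟨q, h1, h2⟩ := exists_rat_btwn (show z - e / 4 < z by linarith)
    exact ⟨q, abs_le.2 ⟨by linarith, by linarith⟩⟩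
  choose ra hra using hra
  obtain ⟨q₀, hq1, hq2⟩ : ∃ q₀ : ℚ, 1 ≤ q₀ ∧ |la l - q₀| ≤ e / 4 := by
    rcases hla.eq_or_lt with h1 | h1
    · refine ⟨1, le_rfl, ?_⟩
      rw [← h1, Rat.cast_one, sub_self, abs_zero]
      linarith
    · obtain ⟨q, h2, h3⟩ := exists_rat_btwn (show max 1 (la l - e / 4) < la l from
        max_lt h1 (by linarith))
      have h4 := (le_max_left (1 : ℝ) (la l - e / 4)).trans_lt h2
      have h5 := (le_max_right (1 : ℝ) (la l - e / 4)).trans_lt h2
      exact ⟨q, by exact_mod_cast h4.le, abs_le.2 ⟨by linarith, by linarith⟩⟩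
  obtain ⟨La, hLa⟩ : ∃ La : Fin n → ℚ, La = fun i : Fin n => if (i : ℕ) = l then q₀ else ra (la (i : ℕ)) :=
    ⟨_, rfl⟩
  obtain ⟨Tt, hTt⟩ : ∃ Tt : Fin n → ℚ, Tt = fun i : Fin n => ra (t (i : ℕ)) := ⟨_, rfl⟩
  have hLa1 : fx La l = q₀ := by
    unfold fx
    rw [dif_pos hl, hLa]
    simp
  have hLai : ∀ i, l ≤ i → i < n → |la i - fx La i| ≤ e / 4 := by
    intro i hi hin
    by_cases h1 : i = l
    · subst h1
      rw [hLa1]
      exact hq2
    · unfold fx
      rw [dif_pos hin, hLa]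
      simp only [h1, if_false]
      exact hra _
  have hTti : ∀ i, i < n → |t i - fx Tt i| ≤ e / 4 := by
    intro i hin
    unfold fx
    rw [dif_pos hin, hTt]
    exact hra _
  -- the size
  have hr : ∃ r : ℝ, 0 < r ∧ ∀ i, l ≤ i → i < n → ∀ s : ℝ, 0 < s → s < r → ∀ a w : ℝ, g - s ≤ w →
      w ≤ a → a ≤ g + s → |L i a w - (L i g g + la i * (a - g) + t i * (w - g))| ≤ e / 4 * s := by
    have key : ∀ k, ∃ r : ℝ, 0 < r ∧ ∀ i, l ≤ i → i < n → i < k → ∀ s : ℝ, 0 < s → s < r →
        ∀ a w : ℝ, g - s ≤ w → w ≤ a → a ≤ g + s →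
          |L i a w - (L i g g + la i * (a - g) + t i * (w - g))| ≤ e / 4 * s := by
      intro k
      induction k with
      | zero => exact ⟨1, one_pos, fun i _ _ h => absurd h (Nat.not_lt_zero i)⟩
      | succ k ih =>
        obtain ⟨r, h1, h2⟩ := ih
        by_cases hk : l ≤ k ∧ k < n
        · obtain ⟨r', h3, h4⟩ := hA k hk.1 hk.2 (e / 4) (by linarith)
          refine ⟨min r r', lt_min h1 h3, fun i hi hin hik s hs hs' => ?_⟩
          rcases Nat.lt_or_ge i k with h5 | h5
          · exact h2 i hi hin h5 s hs (hs'.trans_le (min_le_left _ _))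
          · have : i = k := by omega
            subst this
            exact h4 s hs (hs'.trans_le (min_le_right _ _))
        · refine ⟨r, h1, fun i hi hin hik => ?_⟩
          rcases Nat.lt_or_ge i k with h5 | h5
          · exact h2 i hi hin h5
          · have : i = k := by omega
            subst this
            exact absurd ⟨hi, hin⟩ hk
    obtain ⟨r, h1, h2⟩ := key n
    exact ⟨r, h1, fun i hi hin => h2 i hi hin hin⟩
  obtain ⟨r, hr0, hr⟩ := hr
  obtain ⟨ρ, p1, p2⟩ := exists_rat_btwn hr0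
  refine ⟨(gap, La, Tt, ρ), ⟨hl, q1, ?_, ?_, fun i hi hin => ?_⟩, p1, hg0, hg1,
    fun i hi hin x y hyx hx hy h3 h4 => ?_⟩
  · have h1 := abs_le.1 (hTti l hl)
    show (gap : ℝ) ≤ fx Tt l
    linarith [h1.2]
  · show (1 : ℝ) ≤ fx La l
    rw [hLa1]
    exact_mod_cast hq1
  · have h1 := abs_le.1 (hTti l hl)
    have h2 := abs_le.1 (hTti i hin)
    have h5 := hmi i hi hin
    show fx Tt i + gap ≤ fx Tt l
    linarith [h1.2, h2.1]
  · show |L i (g + x) (g + y) - L i g g - (fx La i * x + fx Tt i * y)| ≤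
      epg n C gap * max |x| |y|
    rw [← he]
    obtain ⟨R, hR⟩ : ∃ R, R = max |x| |y| := ⟨_, rfl⟩
    have hxR : |x| ≤ R := by rw [hR]; exact le_max_left _ _
    have hyR : |y| ≤ R := by rw [hR]; exact le_max_right _ _
    have hRρ : R < ρ := by rw [hR]; exact max_lt hx hy
    rw [← hR]
    rcases (le_trans (abs_nonneg x) hxR).eq_or_lt with h5 | h5
    · have hx0 : x = 0 := abs_eq_zero.1 (le_antisymm (by rw [h5]; exact hxR) (abs_nonneg x))
      have hy0 : y = 0 := abs_eq_zero.1 (le_antisymm (by rw [h5]; exact hyR) (abs_nonneg y))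
      rw [hx0, hy0, ← h5]
      simp
    · obtain ⟨x1, x2⟩ := abs_le.1 hxR
      obtain ⟨y1, y2⟩ := abs_le.1 hyR
      have h6 := hr i hi hin R h5 (by linarith) (g + x) (g + y) (by linarith) (by linarith)
        (by linarith)
      rw [add_sub_cancel_left, add_sub_cancel_left] at h6
      have h7 : |(la i - fx La i) * x| ≤ e / 4 * R := by
        rw [abs_mul]
        exact mul_le_mul (hLai i hi hin) hxR (abs_nonneg _) (by linarith)
      have h8 : |(t i - fx Tt i) * y| ≤ e / 4 * R := by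
        rw [abs_mul]
        exact mul_le_mul (hTti i hin) hyR (abs_nonneg _) (by linarith)
      have e1 : L i (g + x) (g + y) - L i g g - (fx La i * x + fx Tt i * y) =
          (L i (g + x) (g + y) - (L i g g + la i * x + t i * y)) + (la i - fx La i) * x +
            (t i - fx Tt i) * y := by ring
      rw [e1]
      refine (abs_add_le _ _).trans ?_
      have h9 := abs_add_le (L i (g + x) (g + y) - (L i g g + la i * x + t i * y))
        ((la i - fx La i) * x)
      have h10 : e / 4 * R + e / 4 * R + e / 4 * R ≤ e * R := by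
        have : 0 < e * R := mul_pos he0 h5
        linarith
      linarith

end Pool.ZL
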