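import Pool.Agent.H82.ZL.Lu

/-!
# The windows of the stages

`wn a₀ X Mg k = a₀ - X Mg ^ k`: the windows of the stages, `wn a₀ X Mg 0 = w₁`. `wn_bse`: the
numbers of the base `wn a₀ X Mg 1`. `wn_stage`: the loss of a stage at the radius `a₀`.
-/

set_option autoImplicit false

namespace Pool.ZL

open MeasureTheory Set Filter Topology
open Finset (range)
open Pool.LEV (Law)

/-- The windows of the stages. -/
def wn (a₀ X : ℝ) (Mg k : ℕ) : ℝ := a₀ - X * (Mg : ℝ) ^ k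

theorem wn_zero (a₀ X : ℝ) (Mg : ℕ) : wn a₀ X Mg 0 = a₀ - X := by
  unfold wn
  rw [pow_zero, mul_one]

variable {L : ℕ → ℝ → ℝ → ℝ} {l n : ℕ} {lam T : ℕ → ℝ} {gap C rho : ℝ} {a₀ X : ℝ} {Mg : ℕ}

/-- The ratio of the windows is large enough. -/
structure Rat (n : ℕ) (la gap : ℝ) (Mg : ℕ) : Prop where
  big : 8 * n * (la + 1) ≤ gap * (Mg - 1 : ℝ)

theorem rat_ex (n : ℕ) (la : ℝ) (hgap : 0 < gap) : ∃ Mg : ℕ, Rat n la gap Mg := by
  obtain ⟨Mg, h⟩ := exists_nat_ge (1 + 8 * n * (la + 1) / gap)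
  refine ⟨Mg, ⟨?_⟩⟩
  have h1 : 8 * n * (la + 1) / gap ≤ (Mg : ℝ) - 1 := by linarith
  rw [div_le_iff₀ hgap] at h1
  linarith

theorem Rat.mono {la la' : ℝ} (R : Rat n la' gap Mg) (h : la ≤ la') : Rat n la gap Mg := by
  refine ⟨le_trans ?_ R.big⟩
  have : 8 * (n : ℝ) * (la + 1) ≤ 8 * n * (la' + 1) :=
    mul_le_mul_of_nonneg_left (by linarith) (by positivity)
  exact this

theorem Vs.rat (V : Vs l n lam T gap) (R : Rat n (lam l) gap Mg) :
    4 ≤ Kg n gap * (Mg - 1 : ℝ) ∧ (lam l - 1) + 2 ≤ Kg n gap / 2 * (Mg - 1 : ℝ) ∧ (1 : ℝ) < Mg := by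
  have h1 := V.n0
  have h2 := V.gap0
  have h3 := V.lam1
  have hb := R.big
  have hM : (1 : ℝ) < Mg := by
    by_contra hcon
    push Not at hcon
    have h4 : gap * ((Mg : ℝ) - 1) ≤ 0 := mul_nonpos_of_nonneg_of_nonpos h2.le (by linarith)
    have h5 : 0 < 8 * (n : ℝ) * (lam l + 1) := by positivity
    linarith
  have e1 : Kg n gap * ((Mg : ℝ) - 1) = gap * ((Mg : ℝ) - 1) / (4 * n) := by
    unfold Kg
    ring
  have h6 : 2 * (lam l + 1) ≤ Kg n gap * ((Mg : ℝ) - 1) := by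
    rw [e1, le_div_iff₀ (by positivity)]
    linarith
  refine ⟨by linarith, by linarith, hM⟩

/-- **The numbers of the base** of the last stage. -/
theorem wn_bse (V : Vs l n lam T gap) (R : Rat n (lam l) gap Mg) (hX : 0 < X)
    (h0 : 0 < wn a₀ X Mg 1) (h1 : a₀ < 1) :
    Bse (lam l) (Kg n gap) (2 * X) a₀ (wn a₀ X Mg 1) (a₀ - X) ∧ wn a₀ X Mg 1 < a₀ - X := by
  obtain ⟨k1, k2, k3⟩ := V.rat R
  have k4 : (Mg : ℝ) ^ 1 = Mg := pow_one _
  have hd : X < X * (Mg : ℝ) := lt_mul_of_one_lt_right hX k3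
  have hw : a₀ - X - wn a₀ X Mg 1 = X * (Mg - 1 : ℝ) := by
    unfold wn
    rw [k4]
    ring
  have hlt : wn a₀ X Mg 1 < a₀ - X := by
    have : 0 < X * (Mg - 1 : ℝ) := mul_pos hX (by linarith)
    linarith
  refine ⟨⟨h0, hlt.le, by linarith, h1, ?_, ?_⟩, hlt⟩
  · rw [hw]
    have hM2 : (2 : ℝ) ≤ Mg := by
      have : 1 < Mg := by exact_mod_cast k3
      exact_mod_cast this
    have : X * 1 ≤ X * (Mg - 1 : ℝ) := mul_le_mul_of_nonneg_left (by linarith) hX.le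
    linarith
  · rw [hw]
    have := mul_le_mul_of_nonneg_right k2 hX.le
    have e1 : Kg n gap / 2 * (X * (Mg - 1 : ℝ)) = Kg n gap / 2 * (Mg - 1 : ℝ) * X := by ring
    rw [e1]
    linarith

/-- **The loss of a stage** at the radius `a₀`. -/
theorem wn_stage (V : Vs l n lam T gap) (R : Rat n (lam l) gap Mg) (hC : 1 ≤ C) (hX : 0 < X)
    (hg : a₀ - X ∈ Eg L l n lam T (epg n C gap) rho) {k : ℕ} (h0 : 0 < wn a₀ X Mg (k + 1))
    (h1 : a₀ < 1) (hrho : X * (Mg : ℝ) ^ (k + 1) < rho) :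
    psi L l n T a₀ (wn a₀ X Mg (k + 1)) (2 * (X * (Mg : ℝ) ^ k)) (Kg n gap) a₀ (wn a₀ X Mg k) ≤
      2 * epg n C gap * (X * (Mg : ℝ) ^ k) := by
  obtain ⟨k1, k2, k3⟩ := V.rat R
  obtain ⟨x, hx⟩ : ∃ x, x = X * (Mg : ℝ) ^ k := ⟨_, rfl⟩
  have hpow : 1 ≤ (Mg : ℝ) ^ k := one_le_pow₀ k3.le
  have hxX : X ≤ x := by
    rw [hx]
    exact le_mul_of_one_le_right hX.le hpow
  have hx0 : 0 < x := by linarith
  have hx1 : X * (Mg : ℝ) ^ (k + 1) = x * Mg := by rw [hx, pow_succ]; ring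
  have hxM : x < x * (Mg : ℝ) := lt_mul_of_one_lt_right hx0 k3
  have e1 : wn a₀ X Mg k = a₀ - x := by rw [hx]; rfl
  have e2 : wn a₀ X Mg (k + 1) = a₀ - x * Mg := by
    unfold wn
    rw [hx1]
  rw [hx1] at hrho
  rw [e2] at h0 ⊢
  rw [e1, ← hx]
  have hd : a₀ - x - (a₀ - x * Mg) = x * (Mg - 1 : ℝ) := by ring
  have hM2 : (2 : ℝ) ≤ Mg := by
    have : 1 < Mg := by exact_mod_cast k3
    exact_mod_cast this
  have hd1 : x ≤ x * (Mg - 1 : ℝ) := le_mul_of_one_le_right hx0.le (by linarith)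
  refine psi_le V hC hg h0 h1 ?_ ?_ (by linarith) (by linarith) le_rfl ?_ ?_ ?_ ?_
  · rw [abs_lt]
    constructor <;> linarith
  · rw [abs_lt]
    constructor <;> linarith
  · rw [abs_le]
    constructor <;> linarith
  · rw [abs_le]
    constructor <;> linarith
  · linarith
  · rw [sub_self, mul_zero, zero_add, hd]
    have := mul_le_mul_of_nonneg_right k1 hx0.le
    have e3 : Kg n gap / 2 * (x * (Mg - 1 : ℝ)) = Kg n gap * (Mg - 1 : ℝ) * x / 2 := by ring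
    rw [e3]
    linarith

end Pool.ZL
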