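import Pool.Agent.H82.ZL.Eg

/-!
# The losses are small, and the number with the losses is rough

`psi_le`: the loss at a distance `R` from a window of `Eg`. `Bse`: the numbers of the base.
`psi_diag`: no loss at the diagonal nodes of `Eg`. `psi_box`: the loss is `o (r)` in the boxes of a
window where the numbers are affine. `lu_up`: the number with the losses is at most the affine
number. `lu_near`: near the window `w₁` it is near the diagonal.
-/

set_option autoImplicit false

namespace Pool.ZL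

open MeasureTheory Set Filter Topology
open Finset (range)
open Pool.LEV (Law)
open Pool.ZFN (RgUp)

variable {L : ℕ → ℝ → ℝ → ℝ} {l n : ℕ} {lam T : ℕ → ℝ} {gap C rho g b : ℝ}

/-- The estimate at a node near a window of the set. -/
theorem eg_pt {eps : ℝ} (hg : g ∈ Eg L l n lam T eps rho) {i : ℕ} (hi : l ≤ i) (hin : i < n)
    {a w : ℝ} (hwa : w ≤ a) (ha : |a - g| < rho) (hw : |w - g| < rho) (h0 : 0 < w) (h1 : a < 1) :
    |L i a w - (L i g g + lam i * (a - g) + T i * (w - g))| ≤ eps * max |a - g| |w - g| := by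
  have h := hg.2.2 i hi hin (a - g) (w - g) (by linarith) ha hw (by linarith) (by linarith)
  rw [add_sub_cancel, add_sub_cancel] at h
  have e1 : L i a w - (L i g g + lam i * (a - g) + T i * (w - g)) =
      L i a w - L i g g - (lam i * (a - g) + T i * (w - g)) := by ring
  rw [e1]
  exact h

/-- **The loss at a distance** `R`. -/
theorem psi_le (V : Vs l n lam T gap) (hC : 1 ≤ C) (hg : g ∈ Eg L l n lam T (epg n C gap) rho)
    {a₀ w₀ a w R : ℝ} (h0 : 0 < w₀) (h1 : a₀ < 1) (ha₀ : |a₀ - g| < rho) (hw₀ : |w₀ - g| < rho)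
    (hww : w₀ ≤ w) (hwa : w ≤ a) (haa : a ≤ a₀) (haR : |a - g| ≤ R) (hwR : |w - g| ≤ R)
    (hbase : a₀ - g ≤ 4 * (w - w₀) + R)
    (hb2 : (lam l - 1) * (a₀ - a) + b ≤ Kg n gap / 2 * (w - w₀)) :
    psi L l n T a₀ w₀ b (Kg n gap) a w ≤ 2 * epg n C gap * R := by
  obtain ⟨e, he⟩ : ∃ e, e = epg n C gap := ⟨_, rfl⟩
  obtain ⟨K, hK⟩ : ∃ K, K = Kg n gap := ⟨_, rfl⟩
  have e0 : 0 < e := by rw [he]; exact V.e0 hC
  have eK : 16 * e ≤ K := by rw [he, hK]; exact V.eK hC
  rw [← he] at hg ⊢
  rw [← hK] at hb2 ⊢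
  obtain ⟨b1, b2⟩ := abs_lt.1 ha₀
  obtain ⟨b3, b4⟩ := abs_lt.1 hw₀
  obtain ⟨c1, c2⟩ := abs_le.1 haR
  obtain ⟨c3, c4⟩ := abs_le.1 hwR
  have hR0 : 0 ≤ R := (abs_nonneg _).trans haR
  have hla : |a - g| < rho := abs_lt.2 ⟨by linarith, by linarith⟩
  have hlw : |w - g| < rho := abs_lt.2 ⟨by linarith, by linarith⟩
  have hnode : ∀ i, l ≤ i → i < n →
      |L i a w - (L i g g + lam i * (a - g) + T i * (w - g))| ≤ e * R := fun i hi hin =>
    (eg_pt hg hi hin hwa hla hlw (by linarith) (by linarith)).trans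
      (mul_le_mul_of_nonneg_left (max_le haR hwR) e0.le)
  refine psi_le_of V.ln hww ?_ fun i hi hin ω hω1 hω2 => ?_
  · have k1 := eg_pt hg le_rfl V.ln (a := a₀) (w := w₀) (by linarith) ha₀ hw₀ h0 h1
    have k2 : max |a₀ - g| |w₀ - g| ≤ 4 * (w - w₀) + R := by
      refine max_le ?_ ?_ <;> rw [abs_le] <;> constructor <;> linarith
    have k3 := mul_le_mul_of_nonneg_left k2 e0.le
    have k4 := (abs_le.1 (k1.trans k3)).2
    have k5 := (abs_le.1 (hnode l le_rfl V.ln)).1
    have k6 : 16 * e * (w - w₀) ≤ K * (w - w₀) := mul_le_mul_of_nonneg_right eK (by linarith)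
    have k7 : 0 ≤ e * (w - w₀) := mul_nonneg e0.le (by linarith)
    have e1 : T l * (w₀ - g) - T l * (w - g) = -(T l * (w - w₀)) := by ring
    have e2 : e * (4 * (w - w₀) + R) = 4 * (e * (w - w₀)) + e * R := by ring
    have e3 : 16 * e * (w - w₀) = 16 * (e * (w - w₀)) := by ring
    have e4 : 2 * e * R = 2 * (e * R) := by ring
    have e5 : K / 2 * (w - w₀) = K * (w - w₀) / 2 := by ring
    have e6 : (lam l - 1) * (a₀ - a) = lam l * (a₀ - g) - lam l * (a - g) - (a₀ - a) := by ring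
    unfold ps0
    rw [e2] at k4
    rw [e3] at k6
    rw [e5, e6] at hb2
    rw [e4]
    linarith
  · have hωR : |ω - g| ≤ (w - ω) + R := by rw [abs_le]; constructor <;> linarith
    have k1 := eg_pt hg hi hin (a := a) (w := ω) (by linarith) hla
      (abs_lt.2 ⟨by linarith, by linarith⟩) (by linarith) (by linarith)
    have k2 : max |a - g| |ω - g| ≤ (w - ω) + R := max_le (by linarith) hωR
    have k3 := abs_le.1 (k1.trans (mul_le_mul_of_nonneg_left k2 e0.le))
    have k5 := abs_le.1 (hnode i hi hin)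
    have k6 : 16 * e * (w - ω) ≤ K * (w - ω) := mul_le_mul_of_nonneg_right eK (by linarith)
    have k7 : 0 ≤ e * (w - ω) := mul_nonneg e0.le (by linarith)
    have e1 : T i * (ω - g) - T i * (w - g) = T i * (ω - w) := by ring
    have e2 : e * ((w - ω) + R) = e * (w - ω) + e * R := by ring
    have e3 : 16 * e * (w - ω) = 16 * (e * (w - ω)) := by ring
    have e4 : 2 * e * R = 2 * (e * R) := by ring
    rw [e2] at k3
    rw [e3] at k6
    rw [e4, abs_le]
    constructor <;> linarith [k3.1, k3.2, k5.1, k5.2]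

/-- **The numbers of the base**: the node `(a₀, w₀)`, the loss `b`, the window `w₁`; `la` the slope
of `l` in the radius, `K` the slope of the windows. -/
structure Bse (la K b a₀ w₀ w₁ : ℝ) : Prop where
  h0 : 0 < w₀
  h01 : w₀ ≤ w₁
  h1 : w₁ < a₀
  a1 : a₀ < 1
  b4 : a₀ - w₁ ≤ 4 * (w₁ - w₀)
  bK : (la - 1) * (a₀ - w₁) + b ≤ K / 2 * (w₁ - w₀)

/-- The condition of the base at a node above `w₁`. -/
theorem Bse.at {la K a₀ w₀ w₁ a w : ℝ} (B : Bse la K b a₀ w₀ w₁) (hla : 1 ≤ la) (hK : 0 ≤ K)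
    (ha : w₁ ≤ a) (hw : w₁ ≤ w) : (la - 1) * (a₀ - a) + b ≤ K / 2 * (w - w₀) := by
  have h1 : (la - 1) * (a₀ - a) ≤ (la - 1) * (a₀ - w₁) :=
    mul_le_mul_of_nonneg_left (by linarith) (by linarith)
  have h2 : K / 2 * (w₁ - w₀) ≤ K / 2 * (w - w₀) :=
    mul_le_mul_of_nonneg_left (by linarith) (by linarith)
  linarith [B.bK]

/-- **No loss at the diagonal nodes** of the set. -/
theorem psi_diag (V : Vs l n lam T gap) (hC : 1 ≤ C) (hb : Bd01 L l n)
    (hg : g ∈ Eg L l n lam T (epg n C gap) rho) {a₀ w₀ w₁ : ℝ}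
    (B : Bse (lam l) (Kg n gap) b a₀ w₀ w₁) (hwg : w₁ ≤ g) (hga : g ≤ a₀) (ha₀ : a₀ - g < rho)
    (hw₀ : g - w₀ < rho) : psi L l n T a₀ w₀ b (Kg n gap) g g = 0 := by
  have h0 := B.h0
  have h01 := B.h01
  have h1 := B.h1
  have h4 := B.b4
  have h2 := psi_le V hC hg (a := g) (w := g) (R := 0) h0 B.a1
    (abs_lt.2 ⟨by linarith, by linarith⟩) (abs_lt.2 ⟨by linarith, by linarith⟩) (h01.trans hwg)
    le_rfl hga (by rw [sub_self, abs_zero]) (by rw [sub_self, abs_zero]) (by linarith)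
    (B.at V.lam1 V.K0.le hwg hwg)
  rw [mul_zero] at h2
  exact le_antisymm h2 (psi_nn hb V.K0.le V.ln ⟨h0.le, h01.trans hwg, le_rfl, hga, B.a1.le⟩)

/-- The slopes of the set are near the slopes of the window. -/
theorem eg_slope {eps : ℝ} (hg : g ∈ Eg L l n lam T eps rho) (hrho : 0 < rho) {i : ℕ} (hi : l ≤ i)
    (hin : i < n) {la t : ℝ} (hA : AffA (L i) g la t) : |T i - t| ≤ eps := by
  refine le_of_forall_pos_le_add fun e he => ?_
  obtain ⟨r₁, hr₁, h1⟩ := hA e he
  obtain ⟨r, hr⟩ : ∃ r, r = min (r₁ / 2) (min (rho / 2) (g / 2)) := ⟨_, rfl⟩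
  have hg0 := hg.1
  have hr0 : 0 < r := by
    rw [hr]
    exact lt_min (by linarith) (lt_min (by linarith) (by linarith))
  have hr1 : r ≤ r₁ / 2 := by rw [hr]; exact min_le_left _ _
  have hr2 : r ≤ rho / 2 := by rw [hr]; exact (min_le_right _ _).trans (min_le_left _ _)
  have hr3 : r ≤ g / 2 := by rw [hr]; exact (min_le_right _ _).trans (min_le_right _ _)
  have k1 := h1 r hr0 (by linarith) g (g - r) le_rfl (by linarith) (by linarith)
  have k2 := eg_pt hg hi hin (a := g) (w := g - r) (by linarith)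
    (by rw [sub_self, abs_zero]; exact hrho) (abs_lt.2 ⟨by linarith, by linarith⟩)
    (by linarith) hg.2.1
  have e1 : |g - r - g| = r := by
    rw [show g - r - g = -r by ring, abs_neg, abs_of_pos hr0]
  rw [e1, sub_self, abs_zero, mul_zero, add_zero, max_eq_right hr0.le,
    show g - r - g = -r by ring] at k2
  rw [sub_self, mul_zero, add_zero, show g - r - g = -r by ring] at k1
  have k3 : |(T i - t) * r| ≤ (eps + e) * r := by
    have e2 : (T i - t) * r = (L i g (g - r) - (L i g g + t * -r)) * (-1) +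
        (L i g (g - r) - (L i g g + T i * -r)) := by ring
    rw [e2]
    refine (abs_add_le _ _).trans ?_
    rw [abs_mul, abs_neg, abs_one, mul_one, add_mul, add_comm]
    exact add_le_add k2 k1
  rw [abs_mul, abs_of_pos hr0] at k3
  exact le_of_mul_le_mul_right k3 hr0

/-- The slopes in the radius of the set are near the slopes of the window. -/
theorem eg_lam {eps : ℝ} (hg : g ∈ Eg L l n lam T eps rho) (hrho : 0 < rho) {i : ℕ} (hi : l ≤ i)
    (hin : i < n) {la t : ℝ} (hA : AffA (L i) g la t) : |lam i - la| ≤ eps := by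
  refine le_of_forall_pos_le_add fun e he => ?_
  obtain ⟨r₁, hr₁, h1⟩ := hA e he
  obtain ⟨r, hr⟩ : ∃ r, r = min (r₁ / 2) (min (rho / 2) ((1 - g) / 2)) := ⟨_, rfl⟩
  have hg0 := hg.1
  have hg1 := hg.2.1
  have hr0 : 0 < r := by
    rw [hr]
    exact lt_min (by linarith) (lt_min (by linarith) (by linarith))
  have hr1 : r ≤ r₁ / 2 := by rw [hr]; exact min_le_left _ _
  have hr2 : r ≤ rho / 2 := by rw [hr]; exact (min_le_right _ _).trans (min_le_left _ _)
  have hr3 : r ≤ (1 - g) / 2 := by rw [hr]; exact (min_le_right _ _).trans (min_le_right _ _)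
  have k1 := h1 r hr0 (by linarith) (g + r) g (by linarith) (by linarith) le_rfl
  have k2 := eg_pt hg hi hin (a := g + r) (w := g) (by linarith)
    (abs_lt.2 ⟨by linarith, by linarith⟩) (by rw [sub_self, abs_zero]; exact hrho)
    hg0 (by linarith)
  have e1 : |g + r - g| = r := by
    rw [add_sub_cancel_left, abs_of_pos hr0]
  rw [e1, sub_self, abs_zero, mul_zero, add_zero, max_eq_left hr0.le, add_sub_cancel_left] at k2
  rw [sub_self, mul_zero, add_zero, add_sub_cancel_left] at k1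
  have k3 : |(lam i - la) * r| ≤ (eps + e) * r := by
    have e2 : (lam i - la) * r = (L i (g + r) g - (L i g g + la * r)) -
        (L i (g + r) g - (L i g g + lam i * r)) := by ring
    rw [e2]
    refine (abs_sub _ _).trans ?_
    rw [add_mul, add_comm]
    exact add_le_add k2 k1
  rw [abs_mul, abs_of_pos hr0] at k3
  exact le_of_mul_le_mul_right k3 hr0

/-- One radius for all the numbers. -/
theorem aff_all {la t : ℕ → ℝ} (hA : ∀ i, l ≤ i → i < n → AffA (L i) g (la i) (t i)) {e : ℝ}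
    (he : 0 < e) : ∃ r₁ : ℝ, 0 < r₁ ∧ ∀ i, l ≤ i → i < n → ∀ r : ℝ, 0 < r → r < r₁ →
      ∀ a w : ℝ, g - r ≤ w → w ≤ a → a ≤ g + r →
        |L i a w - (L i g g + la i * (a - g) + t i * (w - g))| ≤ e * r := by
  have key : ∀ k, ∃ r₁ : ℝ, 0 < r₁ ∧ ∀ i, l ≤ i → i < n → i < k → ∀ r : ℝ, 0 < r → r < r₁ →
      ∀ a w : ℝ, g - r ≤ w → w ≤ a → a ≤ g + r →
        |L i a w - (L i g g + la i * (a - g) + t i * (w - g))| ≤ e * r := by
    intro k
    induction k with
    | zero => exact ⟨1, one_pos, fun i _ _ h => absurd h (Nat.not_lt_zero i)⟩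
    | succ k ih =>
      obtain ⟨r, h1, h2⟩ := ih
      by_cases hk : l ≤ k ∧ k < n
      · obtain ⟨r', h3, h4⟩ := hA k hk.1 hk.2 e he
        refine ⟨min r r', lt_min h1 h3, fun i hi hin hik s hs hs' => ?_⟩
        rcases Nat.lt_or_ge i k with h5 | h5
        · exact h2 i hi hin h5 s hs (hs'.trans_le (min_le_left _ _))
        · have : i = k := by omega
          subst this
          exact h4 s hs (hs'.trans_le (min_le_right _ _))
      · refine ⟨r, h1, fun i hi hin hik => ?_⟩
        rcases Nat.lt_or_ge i k with h5 | h5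
        · exact h2 i hi hin h5
        · have : i = k := by omega
          subst this
          exact absurd ⟨hi, hin⟩ hk
  obtain ⟨r, h1, h2⟩ := key n
  exact ⟨r, h1, fun i hi hin => h2 i hi hin hin⟩

/-- **The loss is `o (r)`** in the boxes. -/
theorem psi_box (V : Vs l n lam T gap) (hC : 1 ≤ C) (hrho : 0 < rho)
    (hg : g ∈ Eg L l n lam T (epg n C gap) rho) {la t : ℕ → ℝ}
    (hA : ∀ i, l ≤ i → i < n → AffA (L i) g (la i) (t i)) {a₀ w₀ w₁ : ℝ}
    (B : Bse (lam l) (Kg n gap) b a₀ w₀ w₁) (h01 : w₀ < w₁) (hwg : w₁ < g) (hga : g ≤ a₀)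
    (ha₀ : a₀ - g < rho) (hw₀ : g - w₀ < rho) {e' : ℝ} (he' : 0 < e') :
    ∃ r₁ : ℝ, 0 < r₁ ∧ ∀ r : ℝ, 0 < r → r < r₁ → ∀ a w : ℝ, g - r ≤ w → w ≤ a → a ≤ g + r →
      a ≤ a₀ → psi L l n T a₀ w₀ b (Kg n gap) a w ≤ e' * r := by
  have h0 := B.h0
  have h1 := B.a1
  have hb4 := B.b4
  have hB := fun (a w : ℝ) (h2 : w₁ ≤ a) (h3 : w₁ ≤ w) => B.at V.lam1 V.K0.le h2 h3
  obtain ⟨e, he⟩ : ∃ e, e = epg n C gap := ⟨_, rfl⟩
  obtain ⟨K, hK⟩ : ∃ K, K = Kg n gap := ⟨_, rfl⟩
  have e0 : 0 < e := by rw [he]; exact V.e0 hC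
  have eK : 16 * e ≤ K := by rw [he, hK]; exact V.eK hC
  rw [← he] at hg
  simp only [← hK] at hB ⊢
  obtain ⟨r₂, hr₂, k1⟩ := aff_all hA (e := e' / 4) (by linarith)
  have hgw : 0 < g - w₀ := by linarith
  refine ⟨min (min (r₂ / 2) (rho / 4)) (min ((g - w₀) * (e / (K + e))) (g - w₁)),
    lt_min (lt_min (by linarith) (by linarith)) (lt_min (mul_pos hgw (div_pos e0 (by linarith)))
      (by linarith)),
    fun r hr hr' a w hw hwa ha haa => ?_⟩
  have m1 : r < r₂ / 2 := (hr'.trans_le (min_le_left _ _)).trans_le (min_le_left _ _)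
  have m2 : r < rho / 4 := (hr'.trans_le (min_le_left _ _)).trans_le (min_le_right _ _)
  have m3 : r < (g - w₀) * (e / (K + e)) :=
    (hr'.trans_le (min_le_right _ _)).trans_le (min_le_left _ _)
  have m4 : r < g - w₁ := (hr'.trans_le (min_le_right _ _)).trans_le (min_le_right _ _)
  rw [← mul_div_assoc, lt_div_iff₀ (by linarith)] at m3
  have hww : w₀ ≤ w := by linarith
  have hla : |a - g| ≤ r := by rw [abs_le]; constructor <;> linarith
  have hlw : |w - g| ≤ r := by rw [abs_le]; constructor <;> linarith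
  have hnode : ∀ i, l ≤ i → i < n →
      |L i a w - (L i g g + lam i * (a - g) + T i * (w - g))| ≤ e * r := fun i hi hin =>
    (eg_pt hg hi hin hwa (by linarith) (by linarith) (by linarith) (by linarith)).trans
      (mul_le_mul_of_nonneg_left (max_le hla hlw) e0.le)
  have her : 0 < e' * r := mul_pos he' hr
  refine psi_le_of V.ln hww ?_ fun i hi hin ω hω1 hω2 => ?_
  · have k2 := eg_pt hg le_rfl V.ln (a := a₀) (w := w₀) (by linarith)
      (abs_lt.2 ⟨by linarith, by linarith⟩) (abs_lt.2 ⟨by linarith, by linarith⟩) h0 h1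
    have k3 : max |a₀ - g| |w₀ - g| ≤ 4 * (g - w₀) := by
      refine max_le ?_ ?_ <;> rw [abs_le] <;> constructor <;> linarith
    have k4 := (abs_le.1 (k2.trans (mul_le_mul_of_nonneg_left k3 e0.le))).2
    have k5 := (abs_le.1 (hnode l le_rfl V.ln)).1
    have k6 : 16 * e * (g - w₀) ≤ K * (g - w₀) := mul_le_mul_of_nonneg_right eK hgw.le
    have k7 : K * (w - w₀) ≥ K * (g - w₀) - K * r := by
      have : K * (g - w₀ - r) ≤ K * (w - w₀) := mul_le_mul_of_nonneg_left (by linarith)
        (by linarith)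
      rw [mul_sub] at this
      linarith
    have k9 := hB a w (by linarith) (by linarith)
    have e1 : T l * (w₀ - g) - T l * (w - g) = -(T l * (w - w₀)) := by ring
    have e5 : K / 2 * (w - w₀) = K * (w - w₀) / 2 := by ring
    have e6 : (lam l - 1) * (a₀ - a) = lam l * (a₀ - g) - lam l * (a - g) - (a₀ - a) := by ring
    have e7 : e * (4 * (g - w₀)) = 4 * (e * (g - w₀)) := by ring
    have e8 : 16 * e * (g - w₀) = 16 * (e * (g - w₀)) := by ring
    have e9 : r * (K + e) = K * r + e * r := by ring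
    have e10 : (g - w₀) * e = e * (g - w₀) := by ring
    have k8 : 0 < e * (g - w₀) := mul_pos e0 hgw
    have k10 : 0 < K * r := mul_pos (by linarith) hr
    have k11 : 0 < e * r := mul_pos e0 hr
    rw [e5, e6] at k9
    rw [e7] at k4
    rw [e8] at k6
    rw [e9, e10] at m3
    unfold ps0
    linarith
  · rcases le_or_gt (g - 2 * r) ω with h3 | h3
    · have k2 := abs_le.1 (k1 i hi hin (2 * r) (by linarith) (by linarith) a ω (by linarith)
        (by linarith) (by linarith))
      have k3 := abs_le.1 (k1 i hi hin (2 * r) (by linarith) (by linarith) a w (by linarith)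
        hwa (by linarith))
      have k4 := eg_slope hg hrho hi hin (hA i hi hin)
      have k5 : |(T i - t i) * (w - ω)| ≤ K * (w - ω) := by
        rw [abs_mul, abs_of_nonneg (show 0 ≤ w - ω by linarith)]
        exact mul_le_mul_of_nonneg_right (by linarith) (by linarith)
      have k6 := abs_le.1 k5
      have e1 : t i * (ω - g) - t i * (w - g) = -(t i * (w - ω)) := by ring
      have e2 : (T i - t i) * (w - ω) = T i * (w - ω) - t i * (w - ω) := by ring
      have e3 : T i * (ω - w) = -(T i * (w - ω)) := by ring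
      have e4 : e' / 4 * (2 * r) = e' * r / 2 := by ring
      rw [e4] at k2 k3
      rw [e2] at k6
      rw [e3, abs_le]
      constructor <;> linarith [k2.1, k2.2, k3.1, k3.2, k6.1, k6.2]
    · have k2 := eg_pt hg hi hin (a := a) (w := ω) (by linarith) (by linarith)
        (abs_lt.2 ⟨by linarith, by linarith⟩) (by linarith) (by linarith)
      have k3 : max |a - g| |ω - g| ≤ g - ω := by
        refine max_le (by linarith) ?_
        rw [abs_le]
        constructor <;> linarith
      have k4 := abs_le.1 (k2.trans (mul_le_mul_of_nonneg_left k3 e0.le))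
      have k5 := abs_le.1 (hnode i hi hin)
      have k6 : e * (g - ω) + e * r ≤ K * (w - ω) := by
        have k7 : (g - ω) + r ≤ 3 * (w - ω) := by linarith
        have k8 : e * ((g - ω) + r) ≤ e * (3 * (w - ω)) := mul_le_mul_of_nonneg_left k7 e0.le
        have k9 : 16 * e * (w - ω) ≤ K * (w - ω) := mul_le_mul_of_nonneg_right eK (by linarith)
        have k10 : 0 ≤ e * (w - ω) := mul_nonneg e0.le (by linarith)
        nlinarith
      have e1 : T i * (ω - g) - T i * (w - g) = T i * (ω - w) := by ring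
      rw [abs_le]
      constructor <;> linarith [k4.1, k4.2, k5.1, k5.2]

/-- **The number with the losses is at most affine.** -/
theorem lu_up (V : Vs l n lam T gap) (hC : 1 ≤ C) (hrho : 0 < rho)
    (hg : g ∈ Eg L l n lam T (epg n C gap) rho) {la t : ℕ → ℝ}
    (hA : ∀ i, l ≤ i → i < n → AffA (L i) g (la i) (t i)) (hla : 1 ≤ la l) {a₀ w₀ w₁ : ℝ}
    (B : Bse (lam l) (Kg n gap) b a₀ w₀ w₁) (h01 : w₀ < w₁) (hwg : w₁ < g) (hga : g < a₀)
    (ha₀ : a₀ - g < rho) (hw₀ : g - w₀ < rho) {e' : ℝ} (he' : 0 < e') :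
    ∃ r₁ : ℝ, 0 < r₁ ∧ ∀ r : ℝ, 0 < r → r < r₁ → ∀ a w : ℝ, g - r ≤ w → w ≤ a → a ≤ g + r →
      LU L l n T a₀ w₀ b (Kg n gap) C w₁ a w ≤
        L l g g + la l * (a - g) + t l * (w - g) + e' * r := by
  have h0 := B.h0
  have h1 := B.a1
  have hb4 := B.b4
  obtain ⟨e, he⟩ : ∃ e, e = epg n C gap := ⟨_, rfl⟩
  have e0 : 0 < e := by rw [he]; exact V.e0 hC
  have eC : 64 * C * e ≤ gap := by rw [he]; exact V.eC hC
  have hT : gap ≤ T l := V.gl
  have ht := abs_le.1 (eg_slope hg hrho le_rfl V.ln (hA l le_rfl V.ln))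
  have hl' := abs_le.1 (eg_lam hg hrho le_rfl V.ln (hA l le_rfl V.ln))
  rw [← he] at ht hl'
  have eCe : e ≤ C * e := le_mul_of_one_le_left e0.le hC
  have ht0 : 0 < t l := by nlinarith [ht.2]
  have hC0 : 0 < C := by linarith
  obtain ⟨r₂, hr₂, k1⟩ := aff_all hA (e := e' / 4) (by linarith)
  obtain ⟨r₃, hr₃, k2⟩ := psi_box V hC hrho hg hA B h01 hwg hga.le ha₀ hw₀
    (e' := e' / (4 * C)) (by positivity)
  refine ⟨min (min (r₂ / 2) (r₃ / 2)) (min ((g - w₁) / 4) ((a₀ - g) / 4)),
    lt_min (lt_min (by linarith) (by linarith)) (lt_min (by linarith) (by linarith)),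
    fun r hr hr' aT wT hw hwa ha => ?_⟩
  have m1 : r < r₂ / 2 := (hr'.trans_le (min_le_left _ _)).trans_le (min_le_left _ _)
  have m2 : r < r₃ / 2 := (hr'.trans_le (min_le_left _ _)).trans_le (min_le_right _ _)
  have m3 : r < (g - w₁) / 4 := (hr'.trans_le (min_le_right _ _)).trans_le (min_le_left _ _)
  have m4 : r < (a₀ - g) / 4 := (hr'.trans_le (min_le_right _ _)).trans_le (min_le_right _ _)
  refine LU_le (by linarith) fun a h2 h3 => ?_
  obtain ⟨m, hm⟩ : ∃ m, m = min wT a := ⟨_, rfl⟩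
  have hmw : m ≤ wT := by rw [hm]; exact min_le_left _ _
  have hma : m ≤ a := by rw [hm]; exact min_le_right _ _
  rw [← hm]
  rcases le_or_gt (g - 2 * r) a with h4 | h4
  · have hmg : g - 2 * r ≤ m := by rw [hm]; exact le_min (by linarith) h4
    have k3 := (abs_le.1 (k1 l le_rfl V.ln (2 * r) (by linarith) (by linarith) a m hmg hma
      (by linarith))).2
    have k4 := k2 (2 * r) (by linarith) (by linarith) a m hmg hma (by linarith) (by linarith)
    have k5 : C * psi L l n T a₀ w₀ b (Kg n gap) a m ≤ e' * r / 2 := by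
      calc C * psi L l n T a₀ w₀ b (Kg n gap) a m ≤ C * (e' / (4 * C) * (2 * r)) :=
            mul_le_mul_of_nonneg_left k4 hC0.le
        _ = e' * r / 2 := by field_simp; ring
    have k6 : t l * (m - g) ≤ t l * (wT - g) := mul_le_mul_of_nonneg_left (by linarith) ht0.le
    have k7 : (la l - 1) * (aT - a) ≥ 0 := mul_nonneg (by linarith) (by linarith)
    have e1 : (la l - 1) * (aT - a) = la l * (aT - g) - la l * (a - g) - (aT - a) := by ring
    have e2 : e' / 4 * (2 * r) = e' * r / 2 := by ring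
    rw [e2] at k3
    rw [e1] at k7
    linarith
  · have hmeq : m = a := by rw [hm]; exact min_eq_right (by linarith)
    rw [hmeq]
    obtain ⟨R, hR⟩ : ∃ R, R = g - a := ⟨_, rfl⟩
    have hR0 : 0 < R := by linarith
    have habs : |a - g| = R := by
      rw [hR, abs_sub_comm]
      exact abs_of_pos (by linarith)
    have k3 := eg_pt hg le_rfl V.ln (a := a) (w := a) le_rfl (by rw [habs]; linarith)
      (by rw [habs]; linarith) (by linarith) (by linarith)
    rw [habs, max_self, ← he] at k3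
    have k4 := psi_le V hC hg (a := a) (w := a) (R := R) h0 h1
      (abs_lt.2 ⟨by linarith, by linarith⟩) (abs_lt.2 ⟨by linarith, by linarith⟩) (by linarith)
      le_rfl (by linarith) habs.le habs.le (by linarith) (B.at V.lam1 V.K0.le h2 h2)
    rw [← he] at k4
    have k5 := mul_le_mul_of_nonneg_left k4 hC0.le
    have k6 := (abs_le.1 k3).2
    have k7 : -(t l * r) ≤ t l * (wT - g) := by
      have := mul_le_mul_of_nonneg_left (show -r ≤ wT - g by linarith) ht0.le
      linarith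
    have k8 : t l * r ≤ (T l + e) * (R / 2) :=
      mul_le_mul (by linarith [ht.1]) (by linarith) hr.le (by nlinarith)
    -- the slopes in the radius
    have k13 : -((la l - 1) * r) ≤ (la l - 1) * (aT - g) := by
      have := mul_le_mul_of_nonneg_left (show -r ≤ aT - g by linarith)
        (show 0 ≤ la l - 1 by linarith)
      linarith
    have k14 : (la l - 1) * r ≤ (lam l - 1 + e) * r :=
      mul_le_mul_of_nonneg_right (by linarith [hl'.1]) hr.le
    have k15 : (lam l - 1) * r ≤ (lam l - 1) * R :=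
      mul_le_mul_of_nonneg_left (by linarith) (by linarith [V.lam1])
    have k16 : e * r ≤ e * (R / 2) := mul_le_mul_of_nonneg_left (by linarith) e0.le
    have e2 : T l * (a - g) = -(T l * R) := by rw [hR]; ring
    have e5 : lam l * (a - g) = -((lam l - 1) * R) - R := by rw [hR]; ring
    have e6 : la l * (aT - g) = (la l - 1) * (aT - g) + (aT - g) := by ring
    have e7 : (lam l - 1 + e) * r = (lam l - 1) * r + e * r := by ring
    have e3 : C * (2 * e * R) = 2 * (C * e * R) := by ring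
    have k9 : 64 * (C * e * R) ≤ T l * R := by
      have := mul_le_mul_of_nonneg_right (eC.trans hT) hR0.le
      linarith
    have k10 : e * R ≤ C * e * R := mul_le_mul_of_nonneg_right eCe hR0.le
    have e4 : (T l + e) * (R / 2) = T l * R / 2 + e * R / 2 := by ring
    have e8 : e * (R / 2) = e * R / 2 := by ring
    have k11 : 0 < e' * r := mul_pos he' hr
    have k12 : 0 < e * R := mul_pos e0 hR0
    rw [e3] at k5
    rw [e4] at k8
    rw [e2, e5] at k6
    rw [e7] at k14
    rw [e8] at k16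
    rw [e6]
    linarith

/-- **The number with the losses is rough from above.** -/
theorem lu_rg (V : Vs l n lam T gap) (hC : 1 ≤ C) (hrho : 0 < rho)
    (hg : g ∈ Eg L l n lam T (epg n C gap) rho) {la t : ℕ → ℝ}
    (hA : ∀ i, l ≤ i → i < n → AffA (L i) g (la i) (t i)) (hla : la l = 1) {a₀ w₀ w₁ : ℝ}
    (B : Bse (lam l) (Kg n gap) b a₀ w₀ w₁) (h01 : w₀ < w₁) (hwg : w₁ < g) (hga : g < a₀)
    (ha₀ : a₀ - g < rho) (hw₀ : g - w₀ < rho) :
    RgUp (LU L l n T a₀ w₀ b (Kg n gap) C w₁) g (L l g g) (1 + t l) := by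
  intro e' he'
  obtain ⟨r₁, hr₁, h1⟩ := lu_up V hC hrho hg hA hla.ge B h01 hwg hga ha₀ hw₀ he'
  refine ⟨r₁, hr₁, fun r hr hr' a w hw hwa ha => (h1 r hr hr' a w hw hwa ha).trans ?_⟩
  rw [hla]
  have e1 : (1 + t l) * (w - g) = (w - g) + t l * (w - g) := by ring
  rw [e1]
  linarith

/-- **Near the window** `w₁` of the set the number with the losses is near the diagonal. -/
theorem lu_near (V : Vs l n lam T gap) (hC : 1 ≤ C) {a₀ w₀ w₁ : ℝ}
    (hg : w₁ ∈ Eg L l n lam T (epg n C gap) rho) (B : Bse (lam l) (Kg n gap) b a₀ w₀ w₁)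
    (ha₀ : a₀ - w₁ < rho) (hw₀ : w₁ - w₀ < rho) {e' : ℝ} (he' : 0 < e') :
    ∃ d : ℝ, 0 < d ∧ ∀ aT wT : ℝ, w₁ ≤ wT → wT ≤ aT → aT < w₁ + d →
      LU L l n T a₀ w₀ b (Kg n gap) C w₁ aT wT ≤ L l w₁ w₁ + e' := by
  have h0 := B.h0
  have h01 := B.h01
  have hga := B.h1
  have h1 := B.a1
  have hb4 := B.b4
  obtain ⟨e, he⟩ : ∃ e, e = epg n C gap := ⟨_, rfl⟩
  have e0 : 0 < e := by rw [he]; exact V.e0 hC
  have hT : gap ≤ T l := V.gl
  have hgap := V.gap0
  have hl1 := V.lam1
  have hC0 : 0 < C := by linarith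
  obtain ⟨M, hM⟩ : ∃ M, M = 1 + lam l + T l + e + 2 * C * e := ⟨_, rfl⟩
  have hM0 : 0 < M := by
    have : 0 < C * e := mul_pos hC0 e0
    rw [hM]
    linarith
  refine ⟨min (a₀ - w₁) (e' / M), lt_min (by linarith) (by positivity),
    fun aT wT h2 h3 h4 => ?_⟩
  obtain ⟨s, hs⟩ : ∃ s, s = aT - w₁ := ⟨_, rfl⟩
  have hs0 : 0 ≤ s := by linarith
  have hs1 : s < a₀ - w₁ := by
    have := min_le_left (a₀ - w₁) (e' / M)
    linarith
  have hs2 : s * M ≤ e' := by
    have : s < e' / M := by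
      have := min_le_right (a₀ - w₁) (e' / M)
      linarith
    rw [lt_div_iff₀ hM0] at this
    exact this.le
  refine LU_le (by linarith) fun a h5 h6 => ?_
  obtain ⟨m, hm⟩ : ∃ m, m = min wT a := ⟨_, rfl⟩
  have hma : m ≤ a := by rw [hm]; exact min_le_right _ _
  have hmw : w₁ ≤ m := by rw [hm]; exact le_min h2 h5
  rw [← hm]
  have ha : |a - w₁| ≤ s := by rw [abs_le]; constructor <;> linarith
  have hmm : |m - w₁| ≤ s := by rw [abs_le]; constructor <;> linarith
  have k1 := eg_pt hg le_rfl V.ln (a := a) (w := m) hma (by linarith) (by linarith)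
    (by linarith) (by linarith)
  rw [← he] at k1
  have k2 := (abs_le.1 (k1.trans (mul_le_mul_of_nonneg_left (max_le ha hmm) e0.le))).2
  have k3 := psi_le V hC hg (a := a) (w := m) (R := s) h0 h1
    (abs_lt.2 ⟨by linarith, by linarith⟩) (abs_lt.2 ⟨by linarith, by linarith⟩) (by linarith)
    hma (by linarith) ha hmm (by linarith) (B.at V.lam1 V.K0.le h5 hmw)
  rw [← he] at k3
  have k4 := mul_le_mul_of_nonneg_left k3 hC0.le
  have k5 : T l * (m - w₁) ≤ T l * s := mul_le_mul_of_nonneg_left (by linarith) (by linarith)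
  have k6 : lam l * (a - w₁) ≤ lam l * s := mul_le_mul_of_nonneg_left (by linarith) (by linarith)
  have e1 : s * M = s + lam l * s + T l * s + e * s + C * (2 * e * s) := by rw [hM]; ring
  rw [e1] at hs2
  linarith

end Pool.ZL
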