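import Pool.Agent.H39.GEN.Zfn
import Pool.Agent.H39.GEN.Thin

/-!
# The loss of a node

`Nl`: between the windows `w₀` and `w` the numbers of the coordinates are affine in the window, up to
`ψ + K (w - ω)`, the slopes above `l` are smaller than the one of `l` by `gap`, and the number of `l`
at the base node, plus the loss `b` of the base, is not larger than it should be. `psi`: the least
`ψ` for given slopes `T`. `LU`: the number of `l` with the losses on the path from `w₁` to the node.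
`AffA`: a threshold is affine near a window.
-/

set_option autoImplicit false

namespace Pool.ZL

open MeasureTheory Set Filter Topology
open Finset (range)
open Pool.LEV (Law)
open Pool.ZFN (RgUp DgLo)
open Pool.STR (LamAt)

/-- **The condition of a node** `(a, w)`, from the base node `(a₀, w₀)` with the loss `b`. -/
def Nl (L : ℕ → ℝ → ℝ → ℝ) (l n : ℕ) (a₀ w₀ b gap K a w ψ : ℝ) : Prop :=
  ∃ B T : ℕ → ℝ, (∀ i, l < i → i < n → T i + gap ≤ T l) ∧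
    (∀ i, l ≤ i → i < n → ∀ ω, w₀ ≤ ω → ω ≤ w → |L i a ω - B i - T i * ω| ≤ ψ + K * (w - ω)) ∧
    L l a₀ w₀ + b ≤ B l + T l * w₀ + (a₀ - a) + ψ + K * (w - w₀)

theorem Nl.mono {L : ℕ → ℝ → ℝ → ℝ} {l n : ℕ} {a₀ w₀ b gap K a w ψ ψ' : ℝ}
    (h : Nl L l n a₀ w₀ b gap K a w ψ) (hψ : ψ ≤ ψ') : Nl L l n a₀ w₀ b gap K a w ψ' := by
  obtain ⟨B, T, h1, h2, h3⟩ := h
  exact ⟨B, T, h1, fun i hi hin ω h3 h4 => (h2 i hi hin ω h3 h4).trans (by linarith), by linarith⟩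

/-- The loss at the base. -/
def ps0 (L : ℕ → ℝ → ℝ → ℝ) (l : ℕ) (T : ℕ → ℝ) (a₀ w₀ b K a w : ℝ) : ℝ :=
  L l a₀ w₀ + b - (L l a w - T l * (w - w₀)) - (a₀ - a) - K * (w - w₀)

/-- The values of the loss. -/
def psS (L : ℕ → ℝ → ℝ → ℝ) (l n : ℕ) (T : ℕ → ℝ) (a₀ w₀ b K a w : ℝ) : Set ℝ :=
  {y | y = ps0 L l T a₀ w₀ b K a w ∨ ∃ i, l ≤ i ∧ i < n ∧ ∃ ω, w₀ ≤ ω ∧ ω ≤ w ∧
    y = |L i a ω - L i a w - T i * (ω - w)| - K * (w - ω)}

/-- **The loss of a node.** -/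
noncomputable def psi (L : ℕ → ℝ → ℝ → ℝ) (l n : ℕ) (T : ℕ → ℝ) (a₀ w₀ b K a w : ℝ) : ℝ :=
  sSup (psS L l n T a₀ w₀ b K a w)

/-- The bounds of the numbers. -/
def Bd01 (L : ℕ → ℝ → ℝ → ℝ) (l n : ℕ) : Prop :=
  ∀ i, l ≤ i → i < n → ∀ a w : ℝ, 0 ≤ w → w ≤ a → a ≤ 1 → 0 ≤ L i a w ∧ L i a w ≤ 1

variable {L : ℕ → ℝ → ℝ → ℝ} {l n : ℕ} {T lam : ℕ → ℝ} {a₀ w₀ b K a w : ℝ}

/-- The bound of the loss. -/
noncomputable def psM (n : ℕ) (T : ℕ → ℝ) (b : ℝ) : ℝ := 1 + |b| + ∑ i ∈ range n, |T i|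

/-- The base and the node. -/
structure Bn (a₀ w₀ a w : ℝ) : Prop where
  w0 : 0 ≤ w₀
  ww : w₀ ≤ w
  wa : w ≤ a
  aa : a ≤ a₀
  a1 : a₀ ≤ 1

theorem psS_le (hb : Bd01 L l n) (hK : 0 ≤ K) (hl : l < n) (N : Bn a₀ w₀ a w) :
    ∀ y ∈ psS L l n T a₀ w₀ b K a w, y ≤ psM n T b := by
  have h0 := N.w0
  have hww := N.ww
  have hwa := N.wa
  have haa := N.aa
  have ha1 := N.a1
  have hT : ∀ i, i < n → ∀ ω, w₀ ≤ ω → ω ≤ w → |T i * (ω - w)| ≤ ∑ i ∈ range n, |T i| := by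
    intro i hin ω h1 h2
    rw [abs_mul]
    calc |T i| * |ω - w| ≤ |T i| * 1 := by
          refine mul_le_mul_of_nonneg_left ?_ (abs_nonneg _)
          rw [abs_le]
          constructor <;> linarith
      _ = |T i| := mul_one _
      _ ≤ _ := Finset.single_le_sum (f := fun i => |T i|) (fun _ _ => abs_nonneg _)
        (Finset.mem_range.2 hin)
  rintro y (rfl | ⟨i, hi, hin, ω, h1, h2, rfl⟩)
  · have h3 := hb l le_rfl hl a₀ w₀ h0 (by linarith) ha1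
    have h4 := hb l le_rfl hl a w (by linarith) hwa (by linarith)
    have h5 : 0 ≤ K * (w - w₀) := mul_nonneg hK (by linarith)
    have h6 := (abs_le.1 (hT l hl w₀ le_rfl hww)).1
    have h7 := le_abs_self b
    unfold ps0 psM
    linarith [h3.2, h4.1]
  · have h3 := hb i hi hin a ω (by linarith) (by linarith) (by linarith)
    have h4 := hb i hi hin a w (by linarith) hwa (by linarith)
    have h5 : 0 ≤ K * (w - ω) := mul_nonneg hK (by linarith)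
    have h6 : |L i a ω - L i a w| ≤ 1 := by
      rw [abs_le]
      constructor <;> linarith [h3.1, h3.2, h4.1, h4.2]
    have h7 := hT i hin ω h1 h2
    have h8 := abs_sub (L i a ω - L i a w) (T i * (ω - w))
    have h9 := abs_nonneg b
    unfold psM
    linarith

theorem psS_bdd (hb : Bd01 L l n) (hK : 0 ≤ K) (hl : l < n) (N : Bn a₀ w₀ a w) :
    BddAbove (psS L l n T a₀ w₀ b K a w) := ⟨_, psS_le hb hK hl N⟩

theorem psS_zero (hl : l < n) (h : w₀ ≤ w) : (0 : ℝ) ∈ psS L l n T a₀ w₀ b K a w :=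
  Or.inr ⟨l, le_rfl, hl, w, h, le_rfl, by
    rw [sub_self, sub_self, mul_zero, sub_zero, abs_zero, mul_zero, sub_zero]⟩

theorem psi_nn (hb : Bd01 L l n) (hK : 0 ≤ K) (hl : l < n) (N : Bn a₀ w₀ a w) :
    0 ≤ psi L l n T a₀ w₀ b K a w :=
  le_csSup (psS_bdd hb hK hl N) (psS_zero hl N.ww)

theorem psi_le_of (hl : l < n) (h : w₀ ≤ w) {M : ℝ} (h0 : ps0 L l T a₀ w₀ b K a w ≤ M)
    (hM : ∀ i, l ≤ i → i < n → ∀ ω, w₀ ≤ ω → ω ≤ w →
      |L i a ω - L i a w - T i * (ω - w)| ≤ M + K * (w - ω)) :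
    psi L l n T a₀ w₀ b K a w ≤ M := by
  refine csSup_le ⟨0, psS_zero hl h⟩ ?_
  rintro y (rfl | ⟨i, hi, hin, ω, h1, h2, rfl⟩)
  · exact h0
  · have := hM i hi hin ω h1 h2
    linarith

theorem psi_le_M (hb : Bd01 L l n) (hK : 0 ≤ K) (hl : l < n) (N : Bn a₀ w₀ a w) :
    psi L l n T a₀ w₀ b K a w ≤ psM n T b :=
  csSup_le ⟨0, psS_zero hl N.ww⟩ (psS_le hb hK hl N)

/-- **The condition of the node** holds for the loss. -/
theorem nl_psi (hb : Bd01 L l n) (hK : 0 ≤ K) (hl : l < n) (N : Bn a₀ w₀ a w) {gap : ℝ}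
    (hT : ∀ i, l < i → i < n → T i + gap ≤ T l) :
    Nl L l n a₀ w₀ b gap K a w (psi L l n T a₀ w₀ b K a w) := by
  refine ⟨fun i => L i a w - T i * w, T, hT, fun i hi hin ω h1 h2 => ?_, ?_⟩
  · have h3 := le_csSup (psS_bdd (T := T) (b := b) hb hK hl N) (Or.inr ⟨i, hi, hin, ω, h1, h2, rfl⟩)
    have e1 : L i a ω - (L i a w - T i * w) - T i * ω = L i a ω - L i a w - T i * (ω - w) := by
      ring
    rw [e1]
    unfold psi
    linarith
  · have h3 := le_csSup (psS_bdd (T := T) (b := b) hb hK hl N) (Or.inl rfl)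
    have e1 : L l a w - T l * w + T l * w₀ = L l a w - T l * (w - w₀) := by ring
    rw [e1]
    unfold psi
    unfold ps0 at h3
    linarith

/-! ### The number with the losses -/

/-- The values. -/
def luS (L : ℕ → ℝ → ℝ → ℝ) (l n : ℕ) (T : ℕ → ℝ) (a₀ w₀ b K C w₁ aT wT : ℝ) : Set ℝ :=
  {y | ∃ a, w₁ ≤ a ∧ a ≤ aT ∧
    y = L l a (min wT a) + C * psi L l n T a₀ w₀ b K a (min wT a) + (aT - a)}

/-- **The number of `l` with the losses** on the path to the node. -/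
noncomputable def LU (L : ℕ → ℝ → ℝ → ℝ) (l n : ℕ) (T : ℕ → ℝ) (a₀ w₀ b K C w₁ aT wT : ℝ) : ℝ :=
  sSup (luS L l n T a₀ w₀ b K C w₁ aT wT)

variable {C w₁ aT wT : ℝ}

theorem bn_min (h0 : 0 ≤ w₀) (h01 : w₀ ≤ w₁) (h1 : w₁ ≤ wT) (haT : aT ≤ a₀) (h : a₀ ≤ 1) {a : ℝ}
    (h2 : w₁ ≤ a) (h3 : a ≤ aT) : Bn a₀ w₀ a (min wT a) :=
  ⟨h0, le_min (h01.trans h1) (h01.trans h2), min_le_right _ _, h3.trans haT, h⟩

theorem luS_bdd (hb : Bd01 L l n) (hK : 0 ≤ K) (hl : l < n) (hC : 0 ≤ C) (h0 : 0 ≤ w₀)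
    (h01 : w₀ ≤ w₁) (h1 : w₁ ≤ wT) (haT : aT ≤ a₀) (ha₀ : a₀ ≤ 1) :
    BddAbove (luS L l n T a₀ w₀ b K C w₁ aT wT) := by
  refine ⟨1 + C * psM n T b + 1, ?_⟩
  rintro y ⟨a, h2, h3, rfl⟩
  have N := bn_min h0 h01 h1 haT ha₀ h2 h3
  have h6 := hb l le_rfl hl a (min wT a) (h0.trans N.ww) N.wa (N.aa.trans N.a1)
  have h7 := mul_le_mul_of_nonneg_left (psi_le_M (T := T) (b := b) hb hK hl N) hC
  linarith [h6.2]

theorem le_LU (hb : Bd01 L l n) (hK : 0 ≤ K) (hl : l < n) (hC : 0 ≤ C) (h0 : 0 ≤ w₀)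
    (h01 : w₀ ≤ w₁) (h1 : w₁ ≤ wT) (haT : aT ≤ a₀) (ha₀ : a₀ ≤ 1) {a : ℝ} (h2 : w₁ ≤ a)
    (h3 : a ≤ aT) :
    L l a (min wT a) + C * psi L l n T a₀ w₀ b K a (min wT a) + (aT - a) ≤
      LU L l n T a₀ w₀ b K C w₁ aT wT :=
  le_csSup (luS_bdd hb hK hl hC h0 h01 h1 haT ha₀) ⟨a, h2, h3, rfl⟩

theorem LU_le (h1 : w₁ ≤ aT) {M : ℝ} (hM : ∀ a, w₁ ≤ a → a ≤ aT →
    L l a (min wT a) + C * psi L l n T a₀ w₀ b K a (min wT a) + (aT - a) ≤ M) :
    LU L l n T a₀ w₀ b K C w₁ aT wT ≤ M := by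
  refine csSup_le ⟨_, aT, h1, le_rfl, rfl⟩ ?_
  rintro y ⟨a, h2, h3, rfl⟩
  exact hM a h2 h3

theorem self_LU (hb : Bd01 L l n) (hK : 0 ≤ K) (hl : l < n) (hC : 0 ≤ C) (h0 : 0 ≤ w₀)
    (h01 : w₀ ≤ w₁) (h1 : w₁ ≤ wT) (hwa : wT ≤ aT) (haT : aT ≤ a₀) (ha₀ : a₀ ≤ 1) :
    L l aT wT ≤ LU L l n T a₀ w₀ b K C w₁ aT wT := by
  have h2 := le_LU (T := T) (b := b) hb hK hl hC h0 h01 h1 haT ha₀ (h1.trans hwa) le_rfl
  rw [min_eq_left hwa, sub_self, add_zero] at h2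
  have h3 := mul_nonneg hC (psi_nn (T := T) (b := b) hb hK hl
    (⟨h0, h01.trans h1, hwa, haT, ha₀⟩ : Bn a₀ w₀ aT wT))
  linarith

/-! ### Affine thresholds -/

/-- **The threshold is affine near the window** `g`: slope `lam` in the radius, `T` in the window. -/
def AffA (P : ℝ → ℝ → ℝ) (g lam T : ℝ) : Prop :=
  ∀ e : ℝ, 0 < e → ∃ r₁ : ℝ, 0 < r₁ ∧ ∀ r : ℝ, 0 < r → r < r₁ → ∀ a w : ℝ, g - r ≤ w → w ≤ a →
    a ≤ g + r → |P a w - (P g g + lam * (a - g) + T * (w - g))| ≤ e * r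

/-- Rough thresholds are affine. -/
theorem aff_rg {P : ℝ → ℝ → ℝ} (hP : Law P) {g σ : ℝ} (hg0 : 0 < g) (hg1 : g < 1)
    (hD : P g g < 1) (hU : RgUp P g (P g g) σ) (hL : DgLo P g (P g g) σ) :
    AffA P g 1 (σ - 1) := by
  intro e he
  obtain ⟨r₂, hr₂, h2⟩ := hU e he
  obtain ⟨r₃, hr₃, h3⟩ := hL e he
  refine ⟨min (min r₂ r₃) (min (min g (1 - g)) ((1 - P g g) / (|σ| + e + 2))),
    lt_min (lt_min hr₂ hr₃) (lt_min (lt_min hg0 (by linarith)) (div_pos (by linarith)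
      (by positivity))), fun r hr hr' a w hw hwa ha => ?_⟩
  have m1 : r < r₂ := (hr'.trans_le (min_le_left _ _)).trans_le (min_le_left _ _)
  have m2 : r < r₃ := (hr'.trans_le (min_le_left _ _)).trans_le (min_le_right _ _)
  have m3 := hr'.trans_le (min_le_right _ _)
  have m4 : r < g := (m3.trans_le (min_le_left _ _)).trans_le (min_le_left _ _)
  have m5 : r < 1 - g := (m3.trans_le (min_le_left _ _)).trans_le (min_le_right _ _)
  have m6 : r < (1 - P g g) / (|σ| + e + 2) := m3.trans_le (min_le_right _ _)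
  rw [lt_div_iff₀ (by positivity)] at m6
  have h4 := h2 r hr m1 a w hw hwa ha
  have h5 := h3 r hr m2 w hw (by linarith)
  have h6 := h2 r hr m1 w w hw le_rfl (by linarith)
  have h7 := hP.slope w w (a - w) (by linarith) le_rfl (by linarith) (by linarith)
  rw [add_sub_cancel] at h7
  have h8 : P w w + (a - w) ≤ 1 := by
    have h9 : σ * (w - g) ≤ |σ| * r := by
      calc σ * (w - g) ≤ |σ * (w - g)| := le_abs_self _
        _ = |σ| * |w - g| := abs_mul _ _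
        _ ≤ |σ| * r := by
          refine mul_le_mul_of_nonneg_left ?_ (abs_nonneg _)
          rw [abs_le]
          constructor <;> linarith
    have h10 : r * (|σ| + e + 2) = |σ| * r + e * r + 2 * r := by ring
    linarith
  rw [min_eq_right h8] at h7
  have e1 : P g g + 1 * (a - g) + (σ - 1) * (w - g) = P g g + σ * (w - g) + (a - w) := by ring
  rw [e1, abs_le]
  constructor <;> linarith

/-- Thresholds with a slope in the depth are affine. -/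
theorem aff_lam {P : ℝ → ℝ → ℝ} {g lam : ℝ} (hd : DifferentiableAt ℝ (fun v => P v v) g)
    (hL : LamAt P g lam) : AffA P g lam (deriv (fun v => P v v) g - lam) := by
  intro e he
  obtain ⟨r₂, hr₂, h2⟩ := hL (e / 2) (by linarith)
  obtain ⟨r₃, hr₃, h3⟩ := Pool.STR.affB_of hd (M := 1) (e := e / 2) one_pos (by linarith)
  refine ⟨min r₂ r₃, lt_min hr₂ hr₃, fun r hr hr' a w hw hwa ha => ?_⟩
  have h4 := h2 r hr (hr'.trans_le (min_le_left _ _)) a w (by linarith) hwa (by linarith)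
  have h5 := h3 r hr (hr'.trans_le (min_le_right _ _)) w (by
    rw [abs_le]
    constructor <;> linarith)
  have e1 : P a w - (P g g + lam * (a - g) + (deriv (fun v => P v v) g - lam) * (w - g)) =
      (P a w - P w w - lam * (a - w)) +
        (P w w - (P g g + deriv (fun v => P v v) g * (w - g))) := by ring
  rw [e1]
  refine (abs_add_le _ _).trans ?_
  have h6 : |P w w - (P g g + deriv (fun v => P v v) g * (w - g))| ≤ e / 2 * r := by
    refine le_trans (le_of_eq ?_) h5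
    congr 1
    ring
  linarith

end Pool.ZL
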